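import Pool.Agent.H317.GR.StmA

/-!
# Project GR, part A: `S_HOM` (counting homomorphisms)
-/

set_option autoImplicit false

namespace Pool.Agent.H400.GR

open Pool.Agent.H317.GR

/-- A finitely generated group has finitely many homomorphisms to a finite group. -/
theorem finite_hom (G Q : Type) [Group G] [Group.FG G] [Group Q] [Finite Q] :
    Finite (G →* Q) := by
  obtain ⟨S, hS⟩ := (inferInstance : Group.FG G).out
  have hinj : Function.Injective (fun (φ : G →* Q) (s : S) => φ s.1) := by
    intro φ ψ h
    apply MonoidHom.eq_of_eqOn_dense hS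
    intro s hs
    exact congrFun h ⟨s, hs⟩
  exact Finite.of_injective _ hinj

/-- **HOM**. -/
theorem hom : S_HOM := by
  intro G H _ _ _ _ hQ Q _ _
  have : Finite (G →* Q) := finite_hom G Q
  have : Finite (H →* Q) := finite_hom H Q
  -- the product of all homomorphisms `G → Q`
  let F : G →* ((G →* Q) → Q) := MonoidHom.pi (fun φ : G →* Q => φ)
  obtain ⟨f, hf⟩ := hQ F.range ⟨F.rangeRestrict, F.rangeRestrict_surjective⟩
  let Ψ : (G →* Q) → (H →* Q) := fun φ =>
    (Pi.evalMonoidHom (fun _ : G →* Q => Q) φ).comp (F.range.subtype.comp f)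
  have hinj : Function.Injective Ψ := by
    intro φ ψ h
    ext g
    obtain ⟨x, hx⟩ := hf (F.rangeRestrict g)
    have h1 : (f x).1 φ = (f x).1 ψ := DFunLike.congr_fun h x
    rw [hx] at h1
    exact h1
  exact Nat.card_le_card_of_injective Ψ hinj

end Pool.Agent.H400.GR
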